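import Pool.Agent.H232R3.CMOFinal

set_option autoImplicit false

open ArithmeticFunction Finset Filter Topology
open Pool.H232R3

namespace Pool.Agent.X26.CM

/-- summability of the quotient with weight `n ^ θ` -/
lemma quo_summable_rpow (θ : ℝ) (f g : ArithmeticFunction ℂ) (h1 : f 1 = 1)
    (hf : ∀ m n, f (m * n) = f m * f n) (g1 : g 1 = 1) (hg : ∀ m n, g (m * n) = g m * g n)
    (hlt : ∀ p : ℕ, p.Prime → ‖g p‖ * (p : ℝ) ^ θ < 1)
    (hS : Summable fun p : ℕ => if p.Prime then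
      ‖g p - f p‖ * (p : ℝ) ^ θ / (1 - ‖g p‖ * (p : ℝ) ^ θ) else 0) :
    Summable fun n : ℕ => ‖quo f g n‖ * (n : ℝ) ^ θ := by
  set k : ℕ → ℝ := fun n => ‖quo f g n‖ * (n : ℝ) ^ θ with hk
  have hkm := quo_isMultiplicative f g h1 hf g1 hg
  have hk1 : k 1 = 1 := by simp [hk, hkm.map_one]
  have hkmul : ∀ {m n : ℕ}, Nat.Coprime m n → k (m * n) = k m * k n := by
    intro m n hmn
    simp only [hk]
    rw [hkm.map_mul_of_coprime hmn, norm_mul, Nat.cast_mul,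
      Real.mul_rpow (Nat.cast_nonneg _) (Nat.cast_nonneg _)]
    ring
  have hk0 : ∀ n, 0 ≤ k n := fun n => by simp only [hk]; positivity
  have hkp : ∀ p : ℕ, p.Prime → ∀ j : ℕ, k (p ^ (j + 1))
      = (‖g p - f p‖ * (p : ℝ) ^ θ) * (‖g p‖ * (p : ℝ) ^ θ) ^ j := by
    intro p hp j
    simp only [hk]
    rw [quo_prime_pow f g h1 hf g1 hg p hp j, norm_mul, norm_pow, mul_pow]
    have h0 : (0 : ℝ) ≤ p := Nat.cast_nonneg p
    have : ((p ^ (j + 1) : ℕ) : ℝ) ^ θ = ((p : ℝ) ^ θ) ^ j * (p : ℝ) ^ θ := by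
      rw [← pow_succ]
      push_cast
      rw [← Real.rpow_natCast, ← Real.rpow_natCast, ← Real.rpow_mul h0, ← Real.rpow_mul h0,
        mul_comm]
    rw [this]
    ring
  have hgeo : ∀ p : ℕ, p.Prime → HasSum (fun j : ℕ => k (p ^ j))
      (1 + ‖g p - f p‖ * (p : ℝ) ^ θ / (1 - ‖g p‖ * (p : ℝ) ^ θ)) := by
    intro p hp
    have h2 : HasSum (fun j : ℕ => k (p ^ (j + 1)))
        (‖g p - f p‖ * (p : ℝ) ^ θ / (1 - ‖g p‖ * (p : ℝ) ^ θ)) := by
      simp_rw [hkp p hp]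
      rw [div_eq_mul_inv]
      exact (hasSum_geometric_of_lt_one (by positivity) (hlt p hp)).mul_left _
    have h3 := (hasSum_nat_add_iff (f := fun j : ℕ => k (p ^ j)) 1).mp h2
    rw [Finset.sum_range_one, pow_zero, hk1, add_comm] at h3
    exact h3
  have hgs : ∀ {p : ℕ}, p.Prime → Summable (fun n : ℕ => ‖k (p ^ n)‖) := by
    intro p hp
    refine (hgeo p hp).summable.congr fun j => ?_
    rw [Real.norm_eq_abs, abs_of_nonneg (hk0 _)]
  refine summable_of_sum_range_le (c := Real.exp (∑' p : ℕ, if p.Prime then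
      ‖g p - f p‖ * (p : ℝ) ^ θ / (1 - ‖g p‖ * (p : ℝ) ^ θ) else 0)) hk0 fun N => ?_
  have hE := (EulerProduct.summable_and_hasSum_smoothNumbers_prod_primesBelow_tsum hk1 hkmul
    hgs N).2
  have h2 := (hasSum_subtype_iff_indicator (f := k) (s := Nat.smoothNumbers N)).mp hE
  have h3 := sum_le_hasSum (Finset.range N) (fun n _ => Set.indicator_nonneg
    (fun m _ => hk0 m) n) h2
  have h4 : ∑ i ∈ Finset.range N, k i ≤ ∑ i ∈ Finset.range N,
      (Nat.smoothNumbers N).indicator k i := by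
    refine Finset.sum_le_sum fun n hn => ?_
    rw [Finset.mem_range] at hn
    rcases Nat.eq_zero_or_pos n with h0 | hpos
    · rw [h0]
      have : k 0 = 0 := by simp [hk]
      rw [this]
      exact Set.indicator_nonneg (fun m _ => hk0 m) 0
    · rw [Set.indicator_of_mem (Nat.mem_smoothNumbers_of_lt hpos hn)]
  refine (h4.trans h3).trans ?_
  have h5 : ∏ p ∈ N.primesBelow, ∑' n : ℕ, k (p ^ n) ≤ ∏ p ∈ N.primesBelow,
      Real.exp (if p.Prime then
      ‖g p - f p‖ * (p : ℝ) ^ θ / (1 - ‖g p‖ * (p : ℝ) ^ θ) else 0) := by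
    refine Finset.prod_le_prod (fun p _ => tsum_nonneg fun _ => hk0 _) fun p hpb => ?_
    have hpp := Nat.prime_of_mem_primesBelow hpb
    rw [(hgeo p hpp).tsum_eq, if_pos hpp, add_comm]
    exact Real.add_one_le_exp _
  refine h5.trans ?_
  rw [← Real.exp_sum]
  refine Real.exp_le_exp.mpr ?_
  refine hS.sum_le_tsum _ fun p _ => ?_
  split_ifs with hpp
  · have := hlt p hpp
    have h6 : 0 ≤ 1 - ‖g p‖ * (p : ℝ) ^ θ := by linarith
    positivity
  · exact le_rfl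

/-- power decay is kept -/
lemma perturb_rpow (θ : ℝ) (hθ : 0 < θ) (f g : ArithmeticFunction ℂ) (h1 : f 1 = 1)
    (hf : ∀ m n, f (m * n) = f m * f n) (g1 : g 1 = 1) (hg : ∀ m n, g (m * n) = g m * g n)
    (hlt : ∀ p : ℕ, p.Prime → ‖g p‖ * (p : ℝ) ^ θ < 1)
    (hS : Summable fun p : ℕ => if p.Prime then
      ‖g p - f p‖ * (p : ℝ) ^ θ / (1 - ‖g p‖ * (p : ℝ) ^ θ) else 0)
    (C : ℝ) (hC : ∀ N : ℕ, 1 ≤ N → ‖SS (fun n => f n) N‖ ≤ C * (N : ℝ) ^ (-θ)) :
    ∃ C' : ℝ, 0 ≤ C' ∧ ∀ N : ℕ, 1 ≤ N → ‖SS (fun n => g n) N‖ ≤ C' * (N : ℝ) ^ (-θ) := by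
  have hsum := quo_summable_rpow θ f g h1 hf g1 hg hlt hS
  have hC0 : 0 ≤ C := by
    have := hC 1 le_rfl
    rw [Nat.cast_one, Real.one_rpow, mul_one] at this
    exact (norm_nonneg _).trans this
  refine ⟨C * 2 ^ θ * ∑' n : ℕ, ‖quo f g n‖ * (n : ℝ) ^ θ,
    mul_nonneg (by positivity) (tsum_nonneg fun n => by positivity), fun N hN => ?_⟩
  have hN0 : (0 : ℝ) < N := by exact_mod_cast hN
  rw [SS_quo f g h1 hf N]
  calc ‖∑ d ∈ Finset.Ioc 0 N, quo f g d * SS (fun n => f n) (N / d)‖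
      ≤ ∑ d ∈ Finset.Ioc 0 N, ‖quo f g d * SS (fun n => f n) (N / d)‖ := norm_sum_le _ _
    _ ≤ ∑ d ∈ Finset.Ioc 0 N, C * 2 ^ θ * (N : ℝ) ^ (-θ) * (‖quo f g d‖ * (d : ℝ) ^ θ) := by
        refine Finset.sum_le_sum fun d hd => ?_
        rw [Finset.mem_Ioc] at hd
        have hd0 : (0 : ℝ) < d := by exact_mod_cast hd.1
        have hNd : 1 ≤ N / d := (Nat.one_le_div_iff hd.1).mpr hd.2
        have h2 : (N : ℝ) / (2 * d) ≤ ((N / d : ℕ) : ℝ) := by
          rw [div_le_iff₀ (by positivity)]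
          have h3 : N ≤ 2 * (d * (N / d)) := by
            have := Nat.div_add_mod N d
            have h3 := Nat.mod_lt N hd.1
            have h4 : d * 1 ≤ d * (N / d) := Nat.mul_le_mul_left d hNd
            omega
          have h4 : (N : ℝ) ≤ 2 * (d * (N / d : ℕ)) := by exact_mod_cast h3
          linarith
        have h3 : ((N / d : ℕ) : ℝ) ^ (-θ) ≤ 2 ^ θ * (N : ℝ) ^ (-θ) * (d : ℝ) ^ θ := by
          refine (Real.rpow_le_rpow_of_nonpos (by positivity) h2 (by linarith)).trans ?_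
          rw [Real.div_rpow hN0.le (by positivity), Real.mul_rpow (by norm_num) hd0.le,
            Real.rpow_neg (by norm_num : (0 : ℝ) ≤ 2), Real.rpow_neg hd0.le, ← mul_inv,
            div_inv_eq_mul]
          exact le_of_eq (by ring)
        rw [norm_mul]
        calc ‖quo f g d‖ * ‖SS (fun n => f n) (N / d)‖
            ≤ ‖quo f g d‖ * (C * (2 ^ θ * (N : ℝ) ^ (-θ) * (d : ℝ) ^ θ)) := by
              gcongr
              exact (hC _ hNd).trans (by gcongr)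
          _ = _ := by ring
    _ = C * 2 ^ θ * (N : ℝ) ^ (-θ) * ∑ d ∈ Finset.Ioc 0 N, ‖quo f g d‖ * (d : ℝ) ^ θ := by
        rw [Finset.mul_sum]
    _ ≤ C * 2 ^ θ * (N : ℝ) ^ (-θ) * ∑' d : ℕ, ‖quo f g d‖ * (d : ℝ) ^ θ := by
        gcongr
        exact hsum.sum_le_tsum _ fun d _ => by positivity
    _ = _ := by ring

/-- the denominators are harmless -/
lemma summable_div (u v : ℕ → ℝ) (hu0 : ∀ n, 0 ≤ u n) (hu : Summable u)
    (hv : Tendsto v atTop (𝓝 0)) :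
    Summable fun n => u n / (1 - v n) := by
  refine Summable.of_norm_bounded_eventually_nat (hu.mul_left 2) ?_
  filter_upwards [hv.eventually_lt_const (show (0 : ℝ) < 1 / 2 by norm_num)] with n hn
  have h1 : 0 < 1 - v n := by linarith
  rw [Real.norm_eq_abs, abs_of_nonneg (div_nonneg (hu0 n) h1.le), div_le_iff₀ h1]
  nlinarith [hu0 n]

/-- replacing summably many prime values keeps `o(x^(-1/2))` -/
theorem keep (f g : ℕ → ℂ) (h1 : f 1 = 1)
    (hf : ∀ m n : ℕ, 0 < m → 0 < n → f (m * n) = f m * f n) (g1 : g 1 = 1)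
    (hg : ∀ m n : ℕ, 0 < m → 0 < n → g (m * n) = g m * g n)
    (hlt : ∀ p : ℕ, p.Prime → ‖g p‖ * Real.sqrt p < 1)
    (hS : Summable fun p : ℕ => if p.Prime then ‖g p - f p‖ * Real.sqrt p else 0)
    (hd : Tendsto (fun N : ℕ => Real.sqrt N * ‖∑ n ∈ Icc 1 N, f n‖) atTop (𝓝 0)) :
    Tendsto (fun N : ℕ => Real.sqrt N * ‖∑ n ∈ Icc 1 N, g n‖) atTop (𝓝 0) := by
  have e1 : ∀ p : ℕ, p.Prime → ext0 f p = f p := fun p hp => ext0_apply f p hp.ne_zero
  have e2 : ∀ p : ℕ, p.Prime → ext0 g p = g p := fun p hp => ext0_apply g p hp.ne_zero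
  have hd' : Tendsto (fun N : ℕ => Real.sqrt N * ‖SS (fun n => ext0 f n) N‖) atTop (𝓝 0) := by
    simp_rw [ext0_SS]; exact hd
  have hterm : Tendsto (fun N : ℕ => Real.sqrt N * ‖f N‖) atTop (𝓝 0) := by
    refine (term_decay _ hd').congr' ?_
    filter_upwards [eventually_gt_atTop 0] with N hN
    rw [ext0_apply f N (by omega)]
  set w : ℕ → ℝ := fun p => if p.Prime then ‖g p‖ * Real.sqrt p else 0 with hw
  have hw0 : Tendsto w atTop (𝓝 0) := by
    have h2 := (hS.tendsto_atTop_zero).add hterm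
    rw [add_zero] at h2
    refine squeeze_zero (fun p => ?_) (fun p => ?_) h2
    · simp only [hw]; split_ifs <;> positivity
    · simp only [hw]
      split_ifs with hp
      · have h3 : ‖g p‖ ≤ ‖g p - f p‖ + ‖f p‖ := by
          have := norm_add_le (g p - f p) (f p)
          rwa [sub_add_cancel] at this
        calc ‖g p‖ * Real.sqrt p ≤ (‖g p - f p‖ + ‖f p‖) * Real.sqrt p := by gcongr
          _ = _ := by ring
      · positivity
  have hS2 : Summable fun p : ℕ => (if p.Prime then ‖g p - f p‖ * Real.sqrt p else 0) / (1 - w p) :=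
    summable_div _ _ (fun p => by split_ifs <;> positivity) hS hw0
  have h3 := perturb (ext0 f) (ext0 g) (by rw [ext0_apply f 1 one_ne_zero]; exact h1)
    (ext0_mul f hf) (by rw [ext0_apply g 1 one_ne_zero]; exact g1) (ext0_mul g hg)
    (fun p hp => by rw [e2 p hp]; exact hlt p hp) ?_ hd'
  · simp_rw [ext0_SS] at h3; exact h3
  · refine hS2.congr fun p => ?_
    by_cases hp : p.Prime
    · simp only [hw]
      rw [if_pos hp, if_pos hp, if_pos hp, e1 p hp, e2 p hp]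
    · rw [if_neg hp, if_neg hp, zero_div]

/-- power decay version -/
theorem keep_rpow (θ : ℝ) (hθ : 0 < θ) (f g : ℕ → ℂ) (h1 : f 1 = 1)
    (hf : ∀ m n : ℕ, 0 < m → 0 < n → f (m * n) = f m * f n) (g1 : g 1 = 1)
    (hg : ∀ m n : ℕ, 0 < m → 0 < n → g (m * n) = g m * g n)
    (hlt : ∀ p : ℕ, p.Prime → ‖g p‖ * (p : ℝ) ^ θ < 1)
    (hS : Summable fun p : ℕ => if p.Prime then ‖g p - f p‖ * (p : ℝ) ^ θ else 0)
    (hw0 : Tendsto (fun p : ℕ => if p.Prime then ‖g p‖ * (p : ℝ) ^ θ else 0) atTop (𝓝 0))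
    (C : ℝ) (hC : ∀ N : ℕ, 1 ≤ N → ‖∑ n ∈ Icc 1 N, f n‖ ≤ C * (N : ℝ) ^ (-θ)) :
    ∃ C' : ℝ, 0 ≤ C' ∧ ∀ N : ℕ, 1 ≤ N → ‖∑ n ∈ Icc 1 N, g n‖ ≤ C' * (N : ℝ) ^ (-θ) := by
  have e1 : ∀ p : ℕ, p.Prime → ext0 f p = f p := fun p hp => ext0_apply f p hp.ne_zero
  have e2 : ∀ p : ℕ, p.Prime → ext0 g p = g p := fun p hp => ext0_apply g p hp.ne_zero
  have hS2 := summable_div _ _ (fun p => by split_ifs <;> positivity) hS hw0
  have h3 := perturb_rpow θ hθ (ext0 f) (ext0 g) (by rw [ext0_apply f 1 one_ne_zero]; exact h1)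
    (ext0_mul f hf) (by rw [ext0_apply g 1 one_ne_zero]; exact g1) (ext0_mul g hg)
    (fun p hp => by rw [e2 p hp]; exact hlt p hp) ?_ C
    (fun N hN => by rw [ext0_SS]; exact hC N hN)
  · simp_rw [ext0_SS] at h3; exact h3
  · refine hS2.congr fun p => ?_
    by_cases hp : p.Prime
    · rw [if_pos hp, if_pos hp, if_pos hp, e1 p hp, e2 p hp]
    · simp only [if_neg hp, zero_div]

/-- every function with `o(x^(-1/2))` has small prime values -/
lemma small (f : ℕ → ℂ) (h1 : f 1 = 1)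
    (hf : ∀ m n : ℕ, 0 < m → 0 < n → f (m * n) = f m * f n)
    (hd : Tendsto (fun N : ℕ => Real.sqrt N * ‖∑ n ∈ Icc 1 N, f n‖) atTop (𝓝 0))
    (p : ℕ) (hp : p.Prime) : ‖f p‖ * Real.sqrt p < 1 := by
  have hd' : Tendsto (fun N : ℕ => Real.sqrt N * ‖SS (fun n => ext0 f n) N‖) atTop (𝓝 0) := by
    simp_rw [ext0_SS]; exact hd
  have h := prime_small (ext0 f) (by rw [ext0_apply f 1 one_ne_zero]; exact h1) (ext0_mul f hf)
    hd' p hp
  rwa [ext0_apply f p hp.ne_zero] at h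

lemma term (f : ℕ → ℂ)
    (hd : Tendsto (fun N : ℕ => Real.sqrt N * ‖∑ n ∈ Icc 1 N, f n‖) atTop (𝓝 0)) :
    Tendsto (fun N : ℕ => Real.sqrt N * ‖f N‖) atTop (𝓝 0) := by
  have hd' : Tendsto (fun N : ℕ => Real.sqrt N * ‖SS (fun n => ext0 f n) N‖) atTop (𝓝 0) := by
    simp_rw [ext0_SS]; exact hd
  refine (term_decay _ hd').congr' ?_
  filter_upwards [eventually_gt_atTop 0] with N hN
  rw [ext0_apply f N (by omega)]

open Classical in
/-- the completely multiplicative function with values `a p` for `p ∈ P` and `f p` else -/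
noncomputable def repl (P : Set ℕ) (a f : ℕ → ℂ) : ℕ → ℂ :=
  fun n => cmOf (fun p => if p ∈ P then a p else f p) n

lemma repl_one (P : Set ℕ) (a f : ℕ → ℂ) : repl P a f 1 = 1 := cmOf_one _

lemma repl_mul (P : Set ℕ) (a f : ℕ → ℂ) (m n : ℕ) :
    repl P a f (m * n) = repl P a f m * repl P a f n := cmOf_mul _ m n

lemma repl_in (P : Set ℕ) (a f : ℕ → ℂ) (p : ℕ) (hp : p.Prime) (h : p ∈ P) :
    repl P a f p = a p := by
  unfold repl
  rw [cmOf_prime _ p hp, if_pos h]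

lemma repl_out (P : Set ℕ) (a f : ℕ → ℂ) (p : ℕ) (hp : p.Prime) (h : p ∉ P) :
    repl P a f p = f p := by
  unfold repl
  rw [cmOf_prime _ p hp, if_neg h]

end Pool.Agent.X26.CM
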